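import Pool.Agent.V5helper62.MD.Lan

/-!
# Multiple Dirichlet series of quadratic L-functions: the domain and the Lindelöf exponent

The objects are those of the problem (`Pool.Agent.Q48.MDS.Defs`, the variables are
`z = (w, s_1, ..., s_k) : Fin (k + 1) → ℂ`): `F k M z = F_M(s_1, ..., s_k; w)`, and
`ContinuesTo k M p` says that `F_M` extends holomorphically from the region where all the real
parts are greater than `1` to a tube domain containing the real point `p`, with polynomial bounds
in vertical strips. Q1 is `∀ k M ≥ 1, ContinuesTo k M (center k)`, `center k = (1, 1/2, ..., 1/2)`.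

An exponent `θ ≥ 0` is admissible if for every `ε > 0` there is `A` with
`|L(1/2 + it, χ_d)| ≤ A d^(θ + ε) (1 + |t|)^A` for all positive fundamental discriminants `d > 1` and
all real `t`; so `θ = 0` is the Lindelöf hypothesis in the discriminant aspect for the family, and
`θ = 1/4` is admissible (convexity). Put `level p = w + (1/2) ∑_j (s_j - 1/2)` for
`p = (w, s_1, ..., s_k)`.

1. For `θ ≥ 0` the following are equivalent: (a) `θ` is admissible; (b) for all `k` and `M` the
   function `F_M` continues to all the points `p` with `σ_J(p) > 1 + k θ` for all `J`; (c) for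
   every `ε > 0` there are infinitely many `k` such that `F_1`, with `k` variables, continues to
   some point (anywhere) of level at most `(θ + ε) k`.
   So, if `w_k` is the infimum of the levels of the points to which `F_1` continues (equivalently
   of the `w` for which it continues to `(w, 1/2, ..., 1/2)`), then `w_k / k` tends to the least
   admissible exponent.
2. If `F_1`, with `2m` variables, continues to some point `p` then `max(1, level p) / (2m)` is
   admissible. For `p = center`: Q1 with `k = 2m` and `M = 1` alone gives the exponent `1/(2m)`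
   and, by 1., the continuation of all the `F_M` with any number `k` of variables to the points
   with `σ_J(p) > 1 + k/(2m)` for all `J`.
3. Q1 implies the Lindelöf hypothesis in the discriminant aspect (`θ = 0`).
4. A dichotomy: either this Lindelöf hypothesis holds, and then all the `F_M` continue to all the
   points with `σ_J(p) > 1` for all `J` (the region bounded by the polar hyperplanes), so that
   the centers of Q1 are in the closure of all the domains; or there is `c > 0` such that for all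
   large `k` the function `F_1` continues to no point of level at most `c k` (the centers have
   level `1`).
-/

set_option autoImplicit false

namespace Pool.Agent.Results.MP_fed7ff_nt.LindelofExponent

open Pool.Agent.Q48.MDS Complex

/-- The Dirichlet character `χ` modulo `D` is the Kronecker symbol of `D`. -/
def IsKronecker (D : ℕ) (χ : DirichletCharacter ℂ D) : Prop :=
  ∀ n : ℕ, n ≠ 0 → χ (n : ZMod D) = ((kron D n : ℤ) : ℂ)

/-- The exponent `θ` is admissible: `|L(1/2 + it, χ_D)| ≤ A D^(θ + ε) (1 + |t|)^A`. -/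
def Admissible (θ : ℝ) : Prop :=
  ∀ ε : ℝ, 0 < ε → ∃ A : ℝ, 0 < A ∧ ∀ (D : ℕ) [NeZero D], FundDisc D → 1 < D →
    ∀ χ : DirichletCharacter ℂ D, IsKronecker D χ → ∀ t : ℝ,
      ‖χ.LFunction (1 / 2 + I * t)‖ ≤ A * (D : ℝ) ^ (θ + ε) * (1 + |t|) ^ A

/-- The level `w + (1/2) ∑_j (s_j - 1/2)`. -/
noncomputable def level {k : ℕ} (p : Fin (k + 1) → ℝ) : ℝ :=
  p 0 + (∑ j : Fin k, (p j.succ - 1 / 2)) / 2

/-- `σ_J(p) > a` for all `J`, where `σ_J(p) = w + ∑_{j ∈ J} (s_j - 1/2)`. -/
def Chamber {k : ℕ} (a : ℝ) (p : Fin (k + 1) → ℝ) : Prop :=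
  ∀ J : Finset (Fin k), a < p 0 + ∑ j ∈ J, (p j.succ - 1 / 2)

theorem admissible_iff (θ : ℝ) : Admissible θ ↔ Pool.Agent.V5helper62.MD.LH θ := by
  constructor
  · intro h ε hε
    obtain ⟨A, hA, hb⟩ := h ε hε
    refine ⟨A, hA, fun D hD h1 t => ?_⟩
    have h0 : NeZero D := ⟨by omega⟩
    obtain ⟨χ, _, _, _, _, c5, c6⟩ := Pool.Agent.V5helper62.MD.Lf_spec hD h1 h0
    rw [c6]
    exact hb D hD h1 χ c5 t
  · intro h ε hε
    obtain ⟨A, hA, hb⟩ := h ε hε
    refine ⟨A, hA, fun D _ hD h1 χ hχ t => ?_⟩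
    rw [Pool.Agent.V5helper62.MD.Lf_eq_of_char hD h1 χ hχ]
    exact hb D hD h1 t

/-- **The growth of the domains in `k` is the Lindelöf exponent.** -/
theorem result :
    -- the characters of the statement exist and are primitive
    (∀ D : ℕ, FundDisc D → 1 < D → ∃ χ : DirichletCharacter ℂ D, IsKronecker D χ ∧
      χ.IsPrimitive ∧ ∀ ψ : DirichletCharacter ℂ D, IsKronecker D ψ → ψ = χ) ∧
    -- 1. admissible exponents and continuation
    (∀ θ : ℝ, 0 ≤ θ →
      (Admissible θ ↔
        ∀ (k M : ℕ) (p : Fin (k + 1) → ℝ), Chamber (1 + k * θ) p → ContinuesTo k M p) ∧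
      (Admissible θ ↔
        ∀ ε : ℝ, 0 < ε → ∀ K : ℕ, ∃ k ≥ K, ∃ p : Fin (k + 1) → ℝ,
          ContinuesTo k 1 p ∧ level p ≤ (θ + ε) * k)) ∧
    -- 2. one point with an even number of variables
    (∀ m : ℕ, 1 ≤ m → ∀ p : Fin (m + m + 1) → ℝ, ContinuesTo (m + m) 1 p →
      Admissible (max 1 (level p) / (2 * m))) ∧
    -- 3. Q1 implies the Lindelöf hypothesis in the discriminant aspect
    ((∀ k M : ℕ, 1 ≤ k → 1 ≤ M → ContinuesTo k M (center k)) → Admissible 0) ∧
    -- 4. the dichotomy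
    ((Admissible 0 ∧ ∀ (k M : ℕ) (p : Fin (k + 1) → ℝ), Chamber 1 p → ContinuesTo k M p) ∨
      (¬ Admissible 0 ∧ ∃ c : ℝ, 0 < c ∧ ∃ K : ℕ, ∀ k ≥ K, ∀ p : Fin (k + 1) → ℝ,
        ContinuesTo k 1 p → c * k < level p)) := by
  have hA : ∀ θ : ℝ, 0 ≤ θ → Admissible θ → ∀ (k M : ℕ) (p : Fin (k + 1) → ℝ),
      Chamber (1 + k * θ) p → ContinuesTo k M p := fun θ hθ h k M p hp =>
    Pool.Agent.V5helper62.MD.chamber_of_LH hθ ((admissible_iff θ).1 h) hp
  have hB : ∀ θ : ℝ, 0 ≤ θ → (∀ (k M : ℕ) (p : Fin (k + 1) → ℝ), Chamber (1 + k * θ) p →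
      ContinuesTo k M p) → ∀ ε : ℝ, 0 < ε → ∀ K : ℕ, ∃ k ≥ K, ∃ p : Fin (k + 1) → ℝ,
      ContinuesTo k 1 p ∧ level p ≤ (θ + ε) * k := by
    intro θ hθ h ε hε K
    obtain ⟨n, hn⟩ := exists_nat_ge (2 / ε)
    refine ⟨max K n, le_max_left _ _, Pool.Agent.V5helper62.MD.mid _ (2 + (max K n : ℕ) * θ), ?_, ?_⟩
    · refine h _ 1 _ fun J => ?_
      have e : ∀ j : Fin (max K n),
          Pool.Agent.V5helper62.MD.mid (max K n) (2 + (max K n : ℕ) * θ) j.succ - 1 / 2 = 0 := by
        intro j; simp [Pool.Agent.V5helper62.MD.mid]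
      rw [Finset.sum_eq_zero fun j _ => e j]
      simp only [Pool.Agent.V5helper62.MD.mid, Fin.cons_zero, add_zero]
      linarith
    · have e : level (Pool.Agent.V5helper62.MD.mid (max K n) (2 + (max K n : ℕ) * θ)) =
          2 + (max K n : ℕ) * θ := Pool.Agent.V5helper62.MD.level_mid _ _
      rw [e]
      have h1 : (n : ℝ) ≤ ((max K n : ℕ) : ℝ) := by exact_mod_cast le_max_right K n
      have h2 : 2 / ε ≤ ((max K n : ℕ) : ℝ) := hn.trans h1
      rw [div_le_iff₀ hε] at h2
      linarith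
  have hC : ∀ θ : ℝ, 0 ≤ θ → (∀ ε : ℝ, 0 < ε → ∀ K : ℕ, ∃ k ≥ K, ∃ p : Fin (k + 1) → ℝ,
      ContinuesTo k 1 p ∧ level p ≤ (θ + ε) * k) → Admissible θ := fun θ hθ h =>
    (admissible_iff θ).2 (Pool.Agent.V5helper62.MD.LH_of_levels hθ h)
  refine ⟨fun D hD h1 => ?_, fun θ hθ => ⟨⟨hA θ hθ, fun h => hC θ hθ (hB θ hθ h)⟩,
    ⟨fun h => hB θ hθ (hA θ hθ h), hC θ hθ⟩⟩, fun m hm p hp =>
    (admissible_iff _).2 (Pool.Agent.V5helper62.MD.LH_of_level hm hp), fun h => ?_, ?_⟩
  · obtain ⟨χ, c1, _, _, _, c5⟩ := Pool.Agent.V5helper62.MD.exists_char hD h1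
    have h0 : NeZero D := ⟨by omega⟩
    exact ⟨χ, c5, c1, fun ψ hψ => Pool.Agent.W215.QP.char_ext ψ χ fun n hn => by
      rw [hψ n hn, c5 n hn]⟩
  · refine hC 0 le_rfl fun ε hε K => ?_
    obtain ⟨n, hn⟩ := exists_nat_ge (1 / ε)
    refine ⟨max K (max n 1), le_max_left _ _, center _, h _ 1 ?_ le_rfl, ?_⟩
    · exact (le_max_right n 1).trans (le_max_right _ _)
    · have e : level (center (max K (max n 1))) = 1 := Pool.Agent.V5helper62.MD.level_mid _ _
      rw [e]
      have h1 : (n : ℝ) ≤ ((max K (max n 1) : ℕ) : ℝ) := by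
        exact_mod_cast (le_max_left n 1).trans (le_max_right K _)
      have h2 : 1 / ε ≤ ((max K (max n 1) : ℕ) : ℝ) := hn.trans h1
      rw [div_le_iff₀ hε] at h2
      linarith
  · by_cases h : Admissible 0
    · left
      refine ⟨h, fun k M p hp => hA 0 le_rfl h k M p ?_⟩
      intro J
      have := hp J
      simpa using this
    · right
      refine ⟨h, ?_⟩
      by_contra hcon
      push Not at hcon
      apply h
      refine hC 0 le_rfl fun ε hε K => ?_
      obtain ⟨k, hk, p, hp, hl⟩ := hcon ε hε K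
      exact ⟨k, hk, p, hp, by rw [zero_add]; exact hl⟩

end Pool.Agent.Results.MP_fed7ff_nt.LindelofExponent
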