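import Pool.Agent.V5helper62.MD.MomL

/-!
# Multiple Dirichlet series of quadratic L-functions: the domain and the moments of a given order

The objects are those of the problem (`Pool.Agent.Q48.MDS.Defs`, the variables are
`z = (w, s_1, ..., s_k) : Fin (k + 1) → ℂ`): `F k M z = F_M(s_1, ..., s_k; w)`, and
`ContinuesTo k M p` says that `F_M` extends holomorphically from the region where all the real
parts are greater than `1` to a tube domain containing the real point `p`, with polynomial bounds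
in vertical strips. Q1 is `∀ k M ≥ 1, ContinuesTo k M (center k)`, `center k = (1, 1/2, ..., 1/2)`.

`e` is a moment exponent of order `k` if for every `ε > 0` there is `A` with
`∑_{1 < d ≤ X} |L(1/2 + it, χ_d)| ^ k ≤ A X ^ (e + ε) (1 + |t|) ^ A` for all `X ≥ 1` and all real `t`,
where `d` runs over the positive fundamental discriminants. Put
`level p = w + (1/2) ∑_j (s_j - 1/2)` and `σ_J(p) = w + ∑_{j ∈ J} (s_j - 1/2)` for
`p = (w, s_1, ..., s_k)`.

1. If `e ≥ 1` is a moment exponent of order `k ≥ 1`, then all the `F_M` with `k` variables continue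
   to all the points with `σ_J(p) > e` for all `J`, in particular to `(w, 1/2, ..., 1/2)`, `w > e`.
2. For even `k = 2m` and `e ≥ 1` this is an equivalence, and one function `F_1` and arbitrary
   points suffice: `e` is a moment exponent of order `2m` if and only if for every `ε > 0` the
   function `F_1`, with `2m` variables, continues to some point of level at most `e + ε`.
   So, above the level `1`, the infimum of the levels of the points to which `F_1` continues is
   the exact exponent of the moment of order `2m`.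
3. If `F_1` with `K ≥ 2m` variables continues to one point `p` and `w₀ = max(1, level p)`, then
   `w₀` is a moment exponent of order `2m`, and all the `F_M` with `k` variables continue to all the
   `q` such that `σ_J(q) > 1 + (w₀ - 1) k / (2m)` for all `J`, if `k ≤ 2m`, respectively
   `σ_J(q) > w₀ k / (2m)` for all `J`, if `k ≥ 2m`.
-/

set_option autoImplicit false

namespace Pool.Agent.Results.MP_fed7ff_nt.MomentExponents

open Pool.Agent.Q48.MDS Complex

/-- The Dirichlet character `χ` modulo `D` is the Kronecker symbol of `D`. -/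
def IsKronecker (D : ℕ) (χ : DirichletCharacter ℂ D) : Prop :=
  ∀ n : ℕ, n ≠ 0 → χ (n : ZMod D) = ((kron D n : ℤ) : ℂ)

/-- The L-function of the Kronecker symbol of `D > 1`, an entire function (and `0` if there is no
such character; for the fundamental discriminants there is exactly one, see the theorem). -/
noncomputable def LD (D : ℕ) (s : ℂ) : ℂ := by
  classical exact
    if h : 1 < D ∧ ∃ χ : DirichletCharacter ℂ D, IsKronecker D χ then
      haveI : NeZero D := ⟨by omega⟩
      (Classical.choose h.2).LFunction s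
    else 0

/-- The positive fundamental discriminants `1 < D ≤ X`. -/
noncomputable def discs (X : ℕ) : Finset ℕ := by
  classical exact (Finset.Icc 2 X).filter FundDisc

/-- The exponent `e` is a moment exponent of order `k`:
`∑_{1 < D ≤ X} |L(1/2 + it, χ_D)| ^ k ≤ A X ^ (e + ε) (1 + |t|) ^ A`. -/
def MomentExponent (k : ℕ) (e : ℝ) : Prop :=
  ∀ ε : ℝ, 0 < ε → ∃ A : ℝ, 0 < A ∧ ∀ X : ℕ, 1 ≤ X → ∀ t : ℝ,
    ∑ D ∈ discs X, ‖LD D (1 / 2 + I * t)‖ ^ k ≤ A * (X : ℝ) ^ (e + ε) * (1 + |t|) ^ A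

/-- The level `w + (1/2) ∑_j (s_j - 1/2)`. -/
noncomputable def level {k : ℕ} (p : Fin (k + 1) → ℝ) : ℝ :=
  p 0 + (∑ j : Fin k, (p j.succ - 1 / 2)) / 2

/-- `σ_J(p) > a` for all `J`, where `σ_J(p) = w + ∑_{j ∈ J} (s_j - 1/2)`. -/
def Chamber {k : ℕ} (a : ℝ) (p : Fin (k + 1) → ℝ) : Prop :=
  ∀ J : Finset (Fin k), a < p 0 + ∑ j ∈ J, (p j.succ - 1 / 2)

theorem LD_eq {D : ℕ} (hD : FundDisc D) (h1 : 1 < D) (s : ℂ) :
    LD D s = Pool.Agent.V5helper62.MD.Lf D s := by
  have h0 : NeZero D := ⟨by omega⟩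
  obtain ⟨χ, _, _, _, _, c5, _⟩ := Pool.Agent.V5helper62.MD.Lf_spec hD h1 h0
  have h : 1 < D ∧ ∃ χ : DirichletCharacter ℂ D, IsKronecker D χ := ⟨h1, χ, c5⟩
  have h2 : LD D s = (Classical.choose h.2).LFunction s := by
    unfold LD
    rw [dif_pos h]
  rw [h2, Pool.Agent.V5helper62.MD.Lf_eq_of_char hD h1 _ (Classical.choose_spec h.2)]

theorem momentExponent_iff (k : ℕ) (e : ℝ) :
    MomentExponent k e ↔ Pool.Agent.V5helper62.MD.Mom k e := by
  have h : ∀ (X : ℕ) (t : ℝ), ∑ D ∈ discs X, ‖LD D (1 / 2 + I * t)‖ ^ k =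
      ∑ D ∈ Pool.Agent.V5helper62.MD.FD X,
        ‖Pool.Agent.V5helper62.MD.Lf D (1 / 2 + I * t)‖ ^ k := by
    intro X t
    refine Finset.sum_congr rfl fun D hD => ?_
    have hD' : D ∈ Pool.Agent.V5helper62.MD.FD X := hD
    obtain ⟨⟨h1, _⟩, h2⟩ := Pool.Agent.V5helper62.MD.mem_FD.1 hD'
    rw [LD_eq h2 h1]
  constructor
  · intro hm ε hε
    obtain ⟨A, hA, hb⟩ := hm ε hε
    exact ⟨A, hA, fun X hX t => by rw [← h]; exact hb X hX t⟩
  · intro hm ε hε
    obtain ⟨A, hA, hb⟩ := hm ε hε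
    exact ⟨A, hA, fun X hX t => by rw [h]; exact hb X hX t⟩

theorem mid_drop {m K : ℕ} (hK : m + m ≤ K) {w : ℝ}
    (h : ContinuesTo K 1 (Pool.Agent.V5helper62.MD.mid K w)) :
    ContinuesTo (m + m) 1 (Pool.Agent.V5helper62.MD.mid (m + m) w) := by
  rcases Nat.eq_or_lt_of_le hK with h1 | h1
  · subst h1
    exact h
  · obtain ⟨l, hl⟩ : ∃ l : ℕ, K = m + m + (l + 1) := ⟨K - (m + m) - 1, by omega⟩
    subst hl
    have h2 := Pool.Agent.V5helper62.MD.drop_many (m + m) l le_rfl h
    have e : (fun i : Fin (m + m + 1) => Pool.Agent.V5helper62.MD.mid (m + m + (l + 1)) w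
        (Fin.castLE (by omega) i)) = Pool.Agent.V5helper62.MD.mid (m + m) w := by
      funext i
      refine Fin.cases ?_ (fun j => ?_) i
      · simp [Pool.Agent.V5helper62.MD.mid]
      · rw [Fin.castLE_succ]
        simp [Pool.Agent.V5helper62.MD.mid]
    rwa [e] at h2

theorem momentExponent_of_point {m K : ℕ} (hK : m + m ≤ K) {p : Fin (K + 1) → ℝ}
    (h : ContinuesTo K 1 p) : MomentExponent (m + m) (max 1 (level p)) := by
  rw [momentExponent_iff]
  have h1 : ContinuesTo K 1 (Pool.Agent.V5helper62.MD.mid K (max 1 (level p))) :=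
    Pool.Agent.V5helper62.MD.mid_iff.2 ⟨p, h, le_max_right _ _⟩
  have h2 := Pool.Agent.V5helper62.MD.mom_of_level (mid_drop hK h1)
  rw [Pool.Agent.V5helper62.MD.level_mid, max_eq_right (le_max_left _ _)] at h2
  exact h2

/-- **The domain and the moments of a given order.** -/
theorem result :
    -- the characters of the statement
    (∀ (D : ℕ) [NeZero D], FundDisc D → 1 < D → ∃ χ : DirichletCharacter ℂ D, IsKronecker D χ ∧
      χ.IsPrimitive ∧ (∀ ψ : DirichletCharacter ℂ D, IsKronecker D ψ → ψ = χ) ∧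
      ∀ s : ℂ, LD D s = χ.LFunction s) ∧
    -- 1. moments of any order give continuation
    (∀ (k : ℕ) (e : ℝ), 1 ≤ k → 1 ≤ e → MomentExponent k e →
      ∀ (M : ℕ) (p : Fin (k + 1) → ℝ), Chamber e p → ContinuesTo k M p) ∧
    -- 2. equivalence for the even orders
    (∀ (m : ℕ) (e : ℝ), 1 ≤ m → 1 ≤ e →
      (MomentExponent (m + m) e ↔
        ∀ (M : ℕ) (p : Fin (m + m + 1) → ℝ), Chamber e p → ContinuesTo (m + m) M p) ∧
      (MomentExponent (m + m) e ↔
        ∀ ε : ℝ, 0 < ε → ∃ p : Fin (m + m + 1) → ℝ,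
          ContinuesTo (m + m) 1 p ∧ level p ≤ e + ε)) ∧
    -- 3. one point
    (∀ (m K : ℕ) (p : Fin (K + 1) → ℝ), 1 ≤ m → m + m ≤ K → ContinuesTo K 1 p →
      MomentExponent (m + m) (max 1 (level p)) ∧
      ∀ (k M : ℕ) (q : Fin (k + 1) → ℝ), 1 ≤ k →
        (k ≤ m + m → Chamber (1 + (max 1 (level p) - 1) * k / ((m + m : ℕ) : ℝ)) q →
          ContinuesTo k M q) ∧
        (m + m ≤ k → Chamber (max 1 (level p) * k / ((m + m : ℕ) : ℝ)) q →
          ContinuesTo k M q)) := by
  have h1 : ∀ (k : ℕ) (e : ℝ), 1 ≤ k → 1 ≤ e → MomentExponent k e →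
      ∀ (M : ℕ) (p : Fin (k + 1) → ℝ), Chamber e p → ContinuesTo k M p :=
    fun k e hk he h M p hp =>
      Pool.Agent.V5helper62.MD.chamber_of_mom hk he ((momentExponent_iff k e).1 h) hp
  have h2 : ∀ (m : ℕ) (e : ℝ), (∀ (M : ℕ) (p : Fin (m + m + 1) → ℝ), Chamber e p →
      ContinuesTo (m + m) M p) → ∀ ε : ℝ, 0 < ε → ∃ p : Fin (m + m + 1) → ℝ,
          ContinuesTo (m + m) 1 p ∧ level p ≤ e + ε := by
    intro m e h ε hε
    refine ⟨Pool.Agent.V5helper62.MD.mid (m + m) (e + ε), h 1 _ fun J => ?_, ?_⟩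
    · have e1 : ∀ j : Fin (m + m),
          Pool.Agent.V5helper62.MD.mid (m + m) (e + ε) j.succ - 1 / 2 = 0 := by
        intro j; simp [Pool.Agent.V5helper62.MD.mid]
      rw [Finset.sum_eq_zero fun j _ => e1 j]
      simp only [Pool.Agent.V5helper62.MD.mid, Fin.cons_zero, add_zero]
      linarith
    · exact (Pool.Agent.V5helper62.MD.level_mid (m + m) (e + ε)).le
  have h3 : ∀ (m : ℕ) (e : ℝ), 1 ≤ e → (∀ ε : ℝ, 0 < ε → ∃ p : Fin (m + m + 1) → ℝ,
          ContinuesTo (m + m) 1 p ∧ level p ≤ e + ε) → MomentExponent (m + m) e := by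
    intro m e he h
    rw [momentExponent_iff]
    refine Pool.Agent.V5helper62.MD.mom_of_approx fun ε hε => ?_
    obtain ⟨p, hp, hl⟩ := h ε hε
    exact ⟨max 1 (level p), max_le (by linarith) hl,
      (momentExponent_iff _ _).1 (momentExponent_of_point le_rfl hp)⟩
  refine ⟨fun D _ hD hD1 => ?_, h1, fun m e hm he => ⟨⟨h1 _ e (by omega) he, fun h =>
    h3 m e he (h2 m e h)⟩, ⟨fun h => h2 m e (h1 _ e (by omega) he h), h3 m e he⟩⟩,
    fun m K p hm hK hp => ⟨momentExponent_of_point hK hp, fun k M q hk => ⟨fun hkm hq => ?_,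
      fun hkm hq => ?_⟩⟩⟩
  · obtain ⟨χ, c1, _, _, _, c5⟩ := Pool.Agent.V5helper62.MD.exists_char hD hD1
    refine ⟨χ, c5, c1, fun ψ hψ => Pool.Agent.W215.QP.char_ext ψ χ fun n hn => by
      rw [hψ n hn, c5 n hn], fun s => ?_⟩
    rw [LD_eq hD hD1, Pool.Agent.V5helper62.MD.Lf_eq_of_char hD hD1 χ c5]
  · have g1 := (momentExponent_iff _ _).1 (momentExponent_of_point hK hp)
    have g2 := Pool.Agent.V5helper62.MD.mom_down hk hkm g1
    refine Pool.Agent.V5helper62.MD.chamber_of_mom hk ?_ g2 hq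
    have g3 : 1 ≤ max 1 (level p) := le_max_left _ _
    have g4 : 0 ≤ (max 1 (level p) - 1) * k / ((m + m : ℕ) : ℝ) := by
      have : 0 ≤ max 1 (level p) - 1 := by linarith
      positivity
    linarith
  · have g1 := (momentExponent_iff _ _).1 (momentExponent_of_point hK hp)
    have g2 := Pool.Agent.V5helper62.MD.mom_up (by omega) hkm g1
    refine Pool.Agent.V5helper62.MD.chamber_of_mom hk ?_ g2 hq
    have g3 : 1 ≤ max 1 (level p) := le_max_left _ _
    have g5 : (0 : ℝ) < ((m + m : ℕ) : ℝ) := by exact_mod_cast (by omega : 0 < m + m)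
    rw [le_div_iff₀ g5]
    have g6 : ((m + m : ℕ) : ℝ) ≤ k := by exact_mod_cast hkm
    have g7 : (0 : ℝ) ≤ k := by positivity
    nlinarith

end Pool.Agent.Results.MP_fed7ff_nt.MomentExponents
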