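import Pool.Agent.V5helper62.MD.Fold

/-!
# Multiple Dirichlet series of quadratic L-functions: the domain is invariant under reflections

The objects are those of the problem (`Pool.Agent.Q48.MDS.Defs`, the variables are
`z = (w, s_1, ..., s_k) : Fin (k + 1) → ℂ`): `F k M z = F_M(s_1, ..., s_k; w)`, and
`ContinuesTo k M p` says that `F_M` extends holomorphically from the region where all the real
parts are greater than `1` to a tube domain containing the real point `p`, with polynomial bounds
in vertical strips. Q1 is `∀ k M ≥ 1, ContinuesTo k M (center k)`, `center k = (1, 1/2, ..., 1/2)`.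
Let `D_k(M)` be the set of the points `p` with `ContinuesTo k M p`.

* `D_k(M)` is invariant under the reflections `s_j ↦ 1 - s_j`, `w ↦ w + s_j - 1/2` and under the
  permutations of the `s_j`.
* Averaging over reflections: for `p ∈ D_k(M)` and every set `S` of indices the point with
  `s_j = 1/2` for `j ∈ S` and `w + (1/2) ∑_{j ∈ S} (s_j - 1/2)` in place of `w` is in `D_k(M)`.
* The central points `(w, 1/2, ..., 1/2)` of `D_k(M)` are those with `w ≥ level p` for some
  `p ∈ D_k(M)`, where `level p = w + (1/2) ∑_j (s_j - 1/2)`; all `w > 1 + k/4` occur.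
* Hence Q1 is equivalent to: for infinitely many `k` the function `F_1` continues to some point
  (anywhere) of level at most `1`; and if `F_1`, with more than `k` variables `s_j`, continues to
  some point for which the level formed with the first `k` variables only is at most `1`, then
  `F_M`, with `k` variables, continues to its center for every `M`.

Proof: the root number of a real primitive character is `1`, so `L(s, χ_d) = d^(1/2 - s) X(s)
L(1 - s, χ_d)`; `X` has poles at the odd positive integers, so the functional equation of `F_M`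
gives the continuation to the reflected domain without the hyperplanes `s_j = 1, 3, 5, ...`;
Bochner's tube theorem with polynomial bounds (`Pool.Agent.Q48.MDS.bochner`) fills them in.
-/

set_option autoImplicit false

namespace Pool.Agent.Results.MP_fed7ff_nt.Reflections

open Pool.Agent.Q48.MDS

/-- The reflection `s_j ↦ 1 - s_j`, `w ↦ w + s_j - 1/2`. -/
noncomputable def reflection {k : ℕ} (j : Fin k) (p : Fin (k + 1) → ℝ) : Fin (k + 1) → ℝ :=
  fun i => if i = 0 then p 0 + p j.succ - 1 / 2 else if i = j.succ then 1 - p j.succ else p i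

/-- The permutation of the variables `s_j` by `π`. -/
def permute {k : ℕ} (π : Equiv.Perm (Fin k)) (p : Fin (k + 1) → ℝ) : Fin (k + 1) → ℝ :=
  Fin.cons (p 0) (fun j => p (π j).succ)

/-- The variables `s_j`, `j ∈ S`, are replaced by `1/2` and `w` by
`w + (1/2) ∑_{j ∈ S} (s_j - 1/2)`. -/
noncomputable def average {k : ℕ} (S : Finset (Fin k)) (p : Fin (k + 1) → ℝ) : Fin (k + 1) → ℝ :=
  Fin.cons (p 0 + (∑ j ∈ S, (p j.succ - 1 / 2)) / 2) (fun j => if j ∈ S then 1 / 2 else p j.succ)

/-- The level `w + (1/2) ∑_j (s_j - 1/2)`. -/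
noncomputable def level {k : ℕ} (p : Fin (k + 1) → ℝ) : ℝ :=
  p 0 + (∑ j : Fin k, (p j.succ - 1 / 2)) / 2

/-- The point `(w, 1/2, ..., 1/2)`. -/
noncomputable def central (k : ℕ) (w : ℝ) : Fin (k + 1) → ℝ := Fin.cons w (fun _ => 1 / 2)

/-- **The domain of `F_M` is invariant under the reflections.** -/
theorem result :
    -- reflections, permutations, averages over reflections
    (∀ (k M : ℕ) (p : Fin (k + 1) → ℝ), ContinuesTo k M p →
      (∀ j : Fin k, ContinuesTo k M (reflection j p)) ∧
      (∀ π : Equiv.Perm (Fin k), ContinuesTo k M (permute π p)) ∧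
      (∀ S : Finset (Fin k), ContinuesTo k M (average S p))) ∧
    -- the central points of the domain
    (∀ (k M : ℕ) (w : ℝ), ContinuesTo k M (central k w) ↔
      ∃ p : Fin (k + 1) → ℝ, ContinuesTo k M p ∧ level p ≤ w) ∧
    (∀ (k M : ℕ) (w : ℝ), 1 + (k : ℝ) / 4 < w → ContinuesTo k M (central k w)) ∧
    -- Q1 can be tested anywhere on or below the level `1`
    ((∀ k M : ℕ, 1 ≤ k → 1 ≤ M → ContinuesTo k M (center k)) ↔
      ∀ K : ℕ, ∃ k ≥ K, ∃ p : Fin (k + 1) → ℝ, ContinuesTo k 1 p ∧ level p ≤ 1) ∧
    -- from more variables to `k` variables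
    (∀ k l M : ℕ, 1 ≤ M → ∀ p : Fin (k + (l + 1) + 1) → ℝ, ContinuesTo (k + (l + 1)) 1 p →
      level (fun i : Fin (k + 1) => p (Fin.castLE (by omega) i)) ≤ 1 →
      ContinuesTo k M (center k)) := by
  have hmid : ∀ (k M : ℕ) (w : ℝ), ContinuesTo k M (central k w) ↔
      ∃ p : Fin (k + 1) → ℝ, ContinuesTo k M p ∧ level p ≤ w := fun k M w =>
    Pool.Agent.V5helper62.MD.mid_iff
  have hcen : ∀ (k M : ℕ), ContinuesTo k M (center k) ↔
      ∃ p : Fin (k + 1) → ℝ, ContinuesTo k M p ∧ level p ≤ 1 := fun k M => hmid k M 1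
  refine ⟨fun k M p h => ⟨fun j => Pool.Agent.V5helper62.MD.refl h j,
    fun π => Pool.Agent.V5helper62.MD.perm_mem π h,
    fun S => Pool.Agent.V5helper62.MD.fold_mem h S⟩, hmid,
    fun k M w hw => Pool.Agent.V5helper62.MD.mid_convexity hw, ?_, ?_⟩
  · have h1 : (∀ k M : ℕ, 1 ≤ k → 1 ≤ M → ContinuesTo k M (center k)) ↔
        ∀ K : ℕ, ∃ k ≥ K, ContinuesTo k 1 (center k) := q1_iff
    rw [h1]
    simp only [hcen]
  · intro k l M hM p hp hl
    exact (hcen k M).2 ⟨_, Pool.Agent.V5helper62.MD.drop_many k l hM hp, hl⟩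

end Pool.Agent.Results.MP_fed7ff_nt.Reflections
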