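import Pool.Agent.V5helper13.ML.Mean

/-!
# Multiple Dirichlet series of quadratic L-functions: continuation and moments on one vertical line

The objects are those of the problem (`Pool.Agent.Q48.MDS.Defs`; the variables are
`z = (w, s_1, ..., s_k) : Fin (k + 1) → ℂ`): `F k M z = F_M(s_1, ..., s_k; w)`, and
`ContinuesTo k M p` says that `F_M` extends holomorphically from the region where all the real
parts are greater than `1` to a tube domain containing the real point `p`, with polynomial bounds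
in vertical strips. Q1 is `∀ k M ≥ 1, ContinuesTo k M (center k)`, `center k = (1, 1/2, ..., 1/2)`.

For `s = (s_1, ..., s_k)` let `P_s(w) = ∏_J (σ_J(w) - 1)`, a polynomial of degree `2^k` in `w` with
the roots `e_J(s) = 1 + |J|/2 - ∑_{j ∈ J} s_j` (on the critical line `s_j = 1/2 + i t_j` they are
`1 - i ∑_{j ∈ J} t_j`). The weighted moment is `P_s(X d/dX)` applied to the Riesz mean
`∑*_{1 < d ≤ X} (1 - d/X)^m χ_d(M) ∏_j L(s_j, χ_d)`, that is
`∑*_{1 < d ≤ X} χ_d(M) g_{m,s}(d/X) ∏_j L(s_j, χ_d)` with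
`g_{m,s}(x) = ∑_{j ≤ m} (-1)^j (m choose j) P_s(-j) x^j`. The operator `P_s(X d/dX)` annihilates
the main terms `X^(e_J(s))` of the recipe, so no main terms occur in the statement.

For every real point `p = (p_0; a_1, ..., a_k)` with `p_0 > 0` the following are equivalent:

* `F_M` continues to a tube domain containing `p`, with polynomial bounds in vertical strips;
* `PowerSaving`: on the single vertical lines `s_j = a_j + i t_j` the weighted moment is
  `O(X^(p_0 - δ) (1 + |t|)^N)` for all `X ≥ 1` and all `t ∈ ℝ^k` (for all large `m`);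
* `MeanSaving`: for one `m ≥ 2^k` the weighted moment on these lines has this size in mean over
  `X` and `t`: it is integrable on `(1, ∞) × ℝ^k` against `X^(δ - p_0 - 1) (1 + |t|)^(-N)`.

In particular Q1 is equivalent to `MeanSaving` on the critical line `Re s_j = 1/2` with `p_0 = 1`,
`M = 1`, for infinitely many `k`; and this mean value statement implies the pointwise power saving
for all `k`, all twists `M` and all `t`, for instance for the unshifted moments `t = 0`.

Proof: Mellin inversion and a contour shift in `w` in one direction. In the other direction the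
mean values continue `w ↦ F_M(s; w)` for almost every `s` on the lines `Re s_j = a_j` only; this
flat tube is thickened by an interpolation of the Fourier-Laplace transform of `F_M` in all the
variables (between the flat tube and the region of absolute convergence) and Bochner's theorem
with polynomial bounds. The size and the functional equation of `L(s, χ_d)` outside `Re s > 1` are
from `Pool.Agent.V5helper62.MD`.
-/

set_option autoImplicit false

namespace Pool.Agent.Results.MP_fed7ff_nt.VerticalLineMoments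

open Pool.Agent.Q48.MDS MeasureTheory Set Complex

/-- `L d` is the entire continuation of the L-function of `χ_d`, for all `d > 1`. -/
def IsLFamily (L : ℕ → ℂ → ℂ) : Prop :=
  ∀ d : ℕ, FundDisc d → 1 < d → Differentiable ℂ (L d) ∧ ∀ s : ℂ, 1 < s.re → L d s = Lchi d s

/-- `P_s(w) = ∏_J (σ_J(w) - 1)`. -/
noncomputable def polar {k : ℕ} (s : Fin k → ℂ) (w : ℂ) : ℂ :=
  ∏ J : Finset (Fin k), (w - (J.card : ℂ) / 2 + ∑ j ∈ J, s j - 1)

/-- The weight `g_{m,s}(x) = ∑_{j ≤ m} (-1)^j (m choose j) P_s(-j) x^j`. -/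
noncomputable def weight {k : ℕ} (m : ℕ) (s : Fin k → ℂ) (x : ℝ) : ℂ :=
  ∑ j ∈ Finset.range (m + 1), (-1) ^ j * (m.choose j : ℂ) * polar s (-(j : ℂ)) * (x : ℂ) ^ j

open Classical in
/-- The weighted moment `∑*_{1 < d ≤ X} χ_d(M) g_{m,s}(d/X) ∏_j L(s_j, χ_d)`. -/
noncomputable def moment {k : ℕ} (L : ℕ → ℂ → ℂ) (M m : ℕ) (X : ℝ) (s : Fin k → ℂ) : ℂ :=
  ∑ d ∈ (Finset.Icc 2 ⌊X⌋₊).filter FundDisc,
    (kron d M : ℂ) * weight m s ((d : ℝ) / X) * ∏ j : Fin k, L d (s j)

/-- The point `s_j = p_j + i t_j` of the vertical lines through `p = (p_0; p_1, ..., p_k)`. -/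
noncomputable def onLines {k : ℕ} (p : Fin (k + 1) → ℝ) (t : Fin k → ℝ) : Fin k → ℂ :=
  fun j => (p j.succ : ℂ) + I * (t j : ℂ)

/-- Power saving: `O(X^(p_0 - δ) (1 + |t|)^N)` for all `X ≥ 1` and all `t`, for all large `m`. -/
def PowerSaving (L : ℕ → ℂ → ℂ) (k M : ℕ) (p : Fin (k + 1) → ℝ) : Prop :=
  ∃ (m₀ N : ℕ) (δ : ℝ), 0 < δ ∧ ∀ m ≥ m₀, ∃ C : ℝ, ∀ X : ℝ, 1 ≤ X → ∀ t : Fin k → ℝ,
    ‖moment L M m X (onLines p t)‖ ≤ C * X ^ (p 0 - δ) * (1 + ‖t‖) ^ N

/-- Power saving in mean over `X` and `t`, for one `m ≥ 2^k`. -/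
def MeanSaving (L : ℕ → ℂ → ℂ) (k M : ℕ) (p : Fin (k + 1) → ℝ) : Prop :=
  ∃ (m N : ℕ) (δ : ℝ), 2 ^ k ≤ m ∧ 0 < δ ∧
    IntegrableOn (fun q : ℝ × (Fin k → ℝ) => moment L M m q.1 (onLines p q.2) *
      ((q.1 ^ (δ - p 0 - 1) / (1 + ‖q.2‖) ^ N : ℝ) : ℂ)) (Ioi 1 ×ˢ univ)

/-- The level `w + (1/2) ∑_j (s_j - 1/2)`. -/
noncomputable def level {k : ℕ} (p : Fin (k + 1) → ℝ) : ℝ :=
  p 0 + (∑ j : Fin k, (p j.succ - 1 / 2)) / 2

/-- **Continuation to a tube domain is a mean value statement on single vertical lines.** -/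
theorem result :
    -- the L-functions exist
    (∃ L : ℕ → ℂ → ℂ, IsLFamily L) ∧
    ∀ L : ℕ → ℂ → ℂ, IsLFamily L →
      -- continuation, pointwise power saving and power saving in mean are equivalent
      (∀ (k M : ℕ) (p : Fin (k + 1) → ℝ), 0 < p 0 →
        (ContinuesTo k M p ↔ PowerSaving L k M p) ∧ (ContinuesTo k M p ↔ MeanSaving L k M p)) ∧
      -- Q1 is equivalent to the power saving in mean on the critical line for infinitely many `k`
      ((∀ k M : ℕ, 1 ≤ k → 1 ≤ M → ContinuesTo k M (center k)) ↔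
        ∀ K : ℕ, ∃ k ≥ K, MeanSaving L k 1 (center k)) ∧
      -- it can also be tested on any other lines with level at most `1`
      ((∀ k M : ℕ, 1 ≤ k → 1 ≤ M → ContinuesTo k M (center k)) ↔
        ∀ K : ℕ, ∃ k ≥ K, ∃ p : Fin (k + 1) → ℝ, 0 < p 0 ∧ level p ≤ 1 ∧ MeanSaving L k 1 p) ∧
      -- means for infinitely many `k` and `M = 1` give pointwise bounds for all `k` and `M`
      ((∀ K : ℕ, ∃ k ≥ K, MeanSaving L k 1 (center k)) →
        ∀ k M : ℕ, 1 ≤ k → 1 ≤ M → PowerSaving L k M (center k)) := by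
  have hex : IsLFamily Pool.Agent.V5helper62.MD.Lf := fun d hd h1 =>
    ⟨Pool.Agent.V5helper62.MD.Lf_diff hd h1, fun s hs => Pool.Agent.V5helper62.MD.Lf_eq hd h1 hs⟩
  refine ⟨⟨_, hex⟩, fun L hL => ?_⟩
  have hLf : ∀ d, FundDisc d → 1 < d → L d = Pool.Agent.V5helper62.MD.Lf d := fun d hd h1 =>
    Pool.Agent.V5helper13.ML.eq_Lf hd h1 (hL d hd h1).1 (hL d hd h1).2
  have hmom : ∀ {k : ℕ} (M m : ℕ) (X : ℝ) (s : Fin k → ℂ), moment L M m X s =
      Pool.Agent.V5helper13.ML.mom Pool.Agent.V5helper62.MD.Lf M m X s := fun M m X s =>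
    Pool.Agent.V5helper13.ML.mom_congr hLf M m X s
  have h12 : ∀ (k M : ℕ) (p : Fin (k + 1) → ℝ), 0 < p 0 → ContinuesTo k M p →
      PowerSaving L k M p := by
    intro k M p hp h
    obtain ⟨m₀, N, δ, hδ, h1⟩ := Pool.Agent.V5helper13.ML.power_of_continues hp h
    refine ⟨m₀, N, δ, hδ, fun m hm => ?_⟩
    obtain ⟨C, hC⟩ := h1 m hm
    refine ⟨C, fun X hX t => ?_⟩
    rw [hmom]
    exact hC X hX t
  have h23 : ∀ (k M : ℕ) (p : Fin (k + 1) → ℝ), PowerSaving L k M p → MeanSaving L k M p := by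
    rintro k M p ⟨m₀, N, δ, hδ, h1⟩
    obtain ⟨C, hC⟩ := h1 (max m₀ (2 ^ k)) (le_max_left _ _)
    refine ⟨max m₀ (2 ^ k), N + (k + 1), δ / 2, le_max_right _ _, by positivity, ?_⟩
    simp only [hmom] at hC ⊢
    exact Pool.Agent.V5helper13.ML.mean_of_power hδ hC
  have h31 : ∀ (k M : ℕ) (p : Fin (k + 1) → ℝ), 0 < p 0 → MeanSaving L k M p →
      ContinuesTo k M p := by
    rintro k M p hp ⟨m, N, δ, hm, hδ, h1⟩
    simp only [hmom] at h1
    exact Pool.Agent.V5helper13.ML.continues_of_mean hp hm hδ h1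
  have hc0 : ∀ k : ℕ, 0 < (center k) 0 := fun k => by
    show (0 : ℝ) < 1
    exact one_pos
  have hcm : ∀ k M : ℕ, ContinuesTo k M (center k) ↔ MeanSaving L k M (center k) := fun k M =>
    ⟨fun h => h23 k M _ (h12 k M _ (hc0 k) h), h31 k M _ (hc0 k)⟩
  have hQ : (∀ k M : ℕ, 1 ≤ k → 1 ≤ M → ContinuesTo k M (center k)) ↔
        ∀ K : ℕ, ∃ k ≥ K, MeanSaving L k 1 (center k) := by
    have h1 : (∀ k M : ℕ, 1 ≤ k → 1 ≤ M → ContinuesTo k M (center k)) ↔
        ∀ K : ℕ, ∃ k ≥ K, ContinuesTo k 1 (center k) := q1_iff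
    rw [h1]
    simp only [hcm]
  refine ⟨fun k M p hp => ⟨⟨h12 k M p hp, fun h => h31 k M p hp (h23 k M p h)⟩,
    ⟨fun h => h23 k M p (h12 k M p hp h), h31 k M p hp⟩⟩, hQ, ?_, ?_⟩
  · constructor
    · intro h K
      obtain ⟨k, hk, h1⟩ := hQ.1 h K
      refine ⟨k, hk, center k, hc0 k, ?_, h1⟩
      have : level (center k) = 1 := Pool.Agent.V5helper62.MD.level_mid k 1
      exact this.le
    · intro h
      rw [hQ]
      intro K
      obtain ⟨k, hk, p, hp, hl, h1⟩ := h K
      refine ⟨k, hk, (hcm k 1).1 ?_⟩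
      exact Pool.Agent.V5helper62.MD.mid_iff.2 ⟨p, h31 k 1 p hp h1, hl⟩
  · intro h k M hk hM
    exact h12 k M _ (hc0 k) (hQ.2 h k M hk hM)

end Pool.Agent.Results.MP_fed7ff_nt.VerticalLineMoments
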